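import Pool.Agent.N751.CV.Stm

/-!
# PX/NORM: norm reciprocity for closed points of a curve
-/

set_option autoImplicit false

namespace Pool.Agent.N134.PX

open Polynomial Module
open scoped TensorProduct

/-! ### Determinants of polynomials in a matrix -/

section

variable {n : Type*} [Fintype n] [DecidableEq n]

lemma det_lin {L : Type*} [Field L] (T : Matrix n n L) (hT : T.charpoly.Splits) (b : L) :
    (aeval T (X - C b)).det = (T.charpoly.roots.map fun a => a - b).prod := by
  have h1 : aeval T (X - C b) = -(Matrix.scalar n b - T) := by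
    rw [map_sub, aeval_X, aeval_C, neg_sub]
    rfl
  have h2 : T.charpoly.eval b = (T.charpoly.roots.map fun a => b - a).prod :=
    hT.eval_eq_prod_roots_of_monic T.charpoly_monic b
  have h3 : T.charpoly.roots.card = Fintype.card n := by
    rw [← hT.natDegree_eq_card_roots, Matrix.charpoly_natDegree_eq_dim]
  rw [h1, Matrix.det_neg, ← Matrix.eval_charpoly, h2, ← h3, ← Multiset.prod_replicate,
    ← Multiset.map_const', ← Multiset.prod_map_mul]
  congr 1
  refine Multiset.map_congr rfl fun a _ => ?_
  ring

lemma det_aeval_splits {L : Type*} [Field L] (T : Matrix n n L) (hT : T.charpoly.Splits)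
    (Q : L[X]) (hQ : Q.Monic) (hQs : Q.Splits) :
    (aeval T Q).det = resultant T.charpoly Q := by
  let h : L[X] →* L := (Matrix.detMonoidHom : Matrix n n L →* L).comp
    ((aeval T : L[X] →ₐ[L] Matrix n n L) : L[X] →* Matrix n n L)
  have h1 : ∀ P : L[X], h P = (aeval T P).det := fun P => rfl
  have h2 : h Q = (Q.roots.map fun b => (T.charpoly.roots.map fun a => a - b).prod).prod := by
    conv_lhs => rw [hQs.eq_prod_roots_of_monic hQ]
    rw [map_multiset_prod, Multiset.map_map]
    congr 1
    refine Multiset.map_congr rfl fun b _ => ?_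
    rw [Function.comp_apply, h1, det_lin T hT]
  have h3 : resultant T.charpoly Q =
      (T.charpoly.roots.map fun a => (Q.roots.map fun b => a - b).prod).prod := by
    rw [resultant_eq_prod_eval T.charpoly Q Q.natDegree le_rfl hT, T.charpoly_monic.leadingCoeff,
      one_pow, one_mul]
    congr 1
    refine Multiset.map_congr rfl fun a _ => ?_
    exact hQs.eval_eq_prod_roots_of_monic hQ a
  rw [← h1, h2, h3, Multiset.prod_map_prod_map]

/-- the determinant of a polynomial in a matrix is a resultant -/
lemma det_aeval {K : Type*} [Field K] (T : Matrix n n K) (Q : K[X]) (hQ : Q.Monic) :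
    (aeval T Q).det = resultant T.charpoly Q := by
  apply (algebraMap K (AlgebraicClosure K)).injective
  set i := algebraMap K (AlgebraicClosure K) with hi
  have h1 : i (aeval T Q).det = (i.mapMatrix (aeval T Q)).det := RingHom.map_det i _
  have h2 : i.mapMatrix (aeval T Q) = aeval (i.mapMatrix T) (Q.map i) := by
    apply Polynomial.map_aeval_eq_aeval_map
    ext r
    simp [Matrix.algebraMap_matrix_apply, Matrix.map_apply]
    split_ifs <;> simp
  have h3 : (i.mapMatrix T).charpoly = T.charpoly.map i := by
    rw [RingHom.mapMatrix_apply, Matrix.charpoly_map]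
  rw [h1, h2, det_aeval_splits _ (IsAlgClosed.splits _) _ (hQ.map i) (IsAlgClosed.splits _), h3,
    natDegree_map, natDegree_map, resultant_map_map]

end

/-- the norm of a polynomial in a generator -/
lemma norm_pb {K S : Type*} [Field K] [CommRing S] [Algebra K S] (pb : PowerBasis K S)
    (Q : K[X]) (hQ : Q.Monic) :
    Algebra.norm K (aeval pb.gen Q) = resultant (minpoly K pb.gen) Q := by
  rw [Algebra.norm_eq_matrix_det pb.basis, ← Polynomial.aeval_algHom_apply, det_aeval _ _ hQ,
    charpoly_leftMulMatrix]

/-- base change of the norm -/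
lemma norm_bc {R S E : Type*} [CommRing R] [CommRing S] [CommRing E] [Algebra R S] [Algebra R E]
    [Module.Free R S] [Module.Finite R S] (s : S) :
    Algebra.norm E ((1 : E) ⊗ₜ[R] s) = algebraMap R E (Algebra.norm R s) := by
  rw [Algebra.norm_apply, Algebra.norm_apply, ← LinearMap.det_baseChange]
  congr 1
  ext x
  simp

/-- PX/NORM -/
theorem t : Pool.Agent.N751.CV.StmNorm := by
  intro K A M _ _ _ _ _ _ _ _ _ _ φ s hφ hker hs
  -- finiteness
  have hfK : Algebra.FiniteType K A := Algebra.FiniteType.trans (S := K[X]) inferInstance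
    inferInstance
  have hfM : Algebra.FiniteType K M := Algebra.FiniteType.of_surjective φ hφ
  have hfin : Module.Finite K M := finite_of_finite_type_of_isJacobsonRing K M
  have htf : Module.IsTorsionFree K[X] A := inferInstance
  have hfree : Module.Free K[X] A := inferInstance
  obtain ⟨y, hy⟩ : ∃ y : M, y = φ (algebraMap K[X] A X) := ⟨_, rfl⟩
  have hint : IsIntegral K y := Algebra.IsIntegral.isIntegral y
  obtain ⟨q, hq⟩ : ∃ q : K[X], q = minpoly K y := ⟨_, rfl⟩
  have hqm : q.Monic := by rw [hq]; exact minpoly.monic hint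
  have hqi : Irreducible q := by rw [hq]; exact minpoly.irreducible hint
  have hqd : 0 < q.natDegree := hqi.natDegree_pos
  have hφQ : ∀ Q : K[X], φ (algebraMap K[X] A Q) = aeval y Q := by
    intro Q
    have h : φ.comp (IsScalarTower.toAlgHom K K[X] A) = aeval y := by
      apply Polynomial.algHom_ext
      rw [aeval_X, hy]
      rfl
    exact DFunLike.congr_fun h Q
  -- the norm of `s`
  obtain ⟨P, hP⟩ : ∃ P : K[X], P = Algebra.norm K[X] s := ⟨_, rfl⟩
  have hdvd : P ∣ q ^ finrank K[X] A := by
    have h1 : algebraMap K[X] A q ∈ RingHom.ker φ := by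
      rw [RingHom.mem_ker, hφQ, hq, minpoly.aeval]
    rw [hker, Ideal.mem_span_singleton] at h1
    obtain ⟨c, hc⟩ := h1
    rw [← Algebra.norm_algebraMap (S := A), hc, map_mul, hP]
    exact dvd_mul_right _ _
  obtain ⟨k, -, hk⟩ := (dvd_prime_pow hqi.prime _).1 hdvd
  obtain ⟨u, hu⟩ := hk.symm
  obtain ⟨l, hl, hlu⟩ := Polynomial.isUnit_iff.1 u.isUnit
  have hPl : P = C l * q ^ k := by rw [← hu, ← hlu, mul_comm]
  have hl0 : l ≠ 0 := hl.ne_zero
  -- degrees
  have hdeg : k = finrank (IntermediateField.adjoin K {y}) M := by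
    have h1 := finrank_quotient_span_eq_natDegree_norm (F := K) (Module.Free.chooseBasis K[X] A) hs
    have h2 : finrank K (A ⧸ Ideal.span {s}) = finrank K M := by
      rw [← hker]
      exact (Ideal.quotientKerAlgEquivOfSurjective hφ).toLinearEquiv.finrank_eq
    rw [h2, ← hP, hPl, natDegree_C_mul hl0, natDegree_pow,
      ← Module.finrank_mul_finrank K (IntermediateField.adjoin K {y}) M,
      IntermediateField.adjoin.finrank hint, ← hq, mul_comm] at h1
    exact (Nat.eq_of_mul_eq_mul_right hqd h1).symm
  refine ⟨l, hl0, fun p hp => ?_⟩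
  rw [← hy]
  -- the norm of `p(y)`
  let pb := IntermediateField.adjoin.powerBasis hint
  have hgen : pb.gen = IntermediateField.AdjoinSimple.gen K y :=
    IntermediateField.adjoin.powerBasis_gen hint
  have hmin : minpoly K pb.gen = q := by
    rw [hgen, hq, IntermediateField.minpoly_gen]
  have hR : Algebra.norm K (aeval y p) = resultant q p ^ k := by
    have h1 : aeval y p = algebraMap (IntermediateField.adjoin K {y}) M (aeval pb.gen p) := by
      rw [← aeval_algebraMap_apply, hgen]
      rfl
    rw [h1, ← Algebra.norm_norm (S := IntermediateField.adjoin K {y}), Algebra.norm_algebraMap,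
      map_pow, ← hdeg, norm_pb pb p hp, hmin]
  -- the norm of `s`
  have hp0 : p ≠ 0 := hp.ne_zero
  let E := K[X] ⧸ Ideal.span {p}
  have hI : (Ideal.span {p}).map (algebraMap K[X] A) = Ideal.span {algebraMap K[X] A p} := by
    rw [Ideal.map_span, Set.image_singleton]
  let e1 : (A ⧸ Ideal.span {algebraMap K[X] A p}) ≃ₐ[K]
      (A ⧸ (Ideal.span {p}).map (algebraMap K[X] A)) := Ideal.quotientEquivAlgOfEq K hI.symm
  let e2 : (A ⧸ (Ideal.span {p}).map (algebraMap K[X] A)) ≃ₐ[K] E ⊗[K[X]] A :=
    AlgEquiv.ofRingEquiv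
      (f := (Algebra.TensorProduct.quotIdealMapEquivQuotTensor A (Ideal.span {p})).toRingEquiv)
      (fun r => by
        have h1 : algebraMap K (A ⧸ (Ideal.span {p}).map (algebraMap K[X] A)) r =
            Ideal.Quotient.mk _ (algebraMap K[X] A (C r)) := by
          have : algebraMap K[X] A (C r) = algebraMap K A r := by
            rw [IsScalarTower.algebraMap_apply K K[X] A]
            rfl
          rw [this]
          rfl
        rw [h1]
        show (1 : E) ⊗ₜ[K[X]] (algebraMap K[X] A (C r)) = _
        rw [Algebra.algebraMap_eq_smul_one, ← TensorProduct.smul_tmul,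
          Algebra.TensorProduct.algebraMap_apply]
        congr 1
        rw [← Algebra.algebraMap_eq_smul_one]
        rfl)
  have hs1 : Algebra.norm K (Ideal.Quotient.mk (Ideal.span {algebraMap K[X] A p}) s) =
      Algebra.norm K ((1 : E) ⊗ₜ[K[X]] s) := by
    have k1 := Algebra.norm_eq_of_algEquiv e1
      (Ideal.Quotient.mk (Ideal.span {algebraMap K[X] A p}) s)
    have k2 := Algebra.norm_eq_of_algEquiv (T := E ⊗[K[X]] A) e2
      (e1 (Ideal.Quotient.mk (Ideal.span {algebraMap K[X] A p}) s))
    rw [← k1, ← k2]
    rfl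
  have hs2 : Algebra.norm K ((1 : E) ⊗ₜ[K[X]] s) =
      Algebra.norm K (algebraMap K[X] E P) := by
    rw [← Algebra.norm_norm (S := E), norm_bc, hP]
  let pb1 : PowerBasis K (AdjoinRoot p) := AdjoinRoot.powerBasis hp0
  have hmin1 : minpoly K pb1.gen = p := AdjoinRoot.minpoly_powerBasis_gen_of_monic hp
  have hs3 : Algebra.norm K (algebraMap K[X] E P) = l ^ p.natDegree * resultant p q ^ k := by
    have h1 : algebraMap K[X] E P = algebraMap K E l * (algebraMap K[X] E q) ^ k := by
      rw [hPl, map_mul, map_pow]
      rfl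
    have h2 : AdjoinRoot.mk p q = aeval pb1.gen q := (AdjoinRoot.aeval_eq (f := p) q).symm
    have h3 : finrank K E = p.natDegree := pb1.finrank.trans rfl
    have h4 : Algebra.norm K (AdjoinRoot.mk p q) = resultant p q := by
      rw [h2, norm_pb pb1 q hqm, hmin1]
    have h5 : Algebra.norm K (algebraMap K[X] E q) = resultant p q := h4
    rw [h1, map_mul, map_pow, Algebra.norm_algebraMap, h3, h5]
  rw [hs1, hs2, hs3, hR, resultant_comm p q, mul_pow, ← pow_mul]
  rcases neg_one_pow_eq_or K (p.natDegree * q.natDegree * k) with h | h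
  · left
    rw [h, one_mul]
  · right
    rw [h]
    ring

end Pool.Agent.N134.PX
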